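import Mathlib
import Pool.Agent.Q102.DSFClass

/-!
# An infinite minimal degree-sequence-forcing set

The definitions are in `Pool.Agent.Q102.DSFBasic` (degree sequences) and
`Pool.Agent.Q102.DSFClass` (isomorphism classes, free graphs, degree-sequence-forcing sets).
-/

set_option autoImplicit false

open SimpleGraph Finset

namespace Pool.Agent.Results.MP_b4d381_co.InfiniteMinimalDSF

open Pool.Agent.Q102.DSF

theorem result : ∃ F : Set IsoClass, IsMinimalDSF F ∧ F.Infinite :=
  ⟨DD GG, isMinimalDSF_DD GG, infinite_DD⟩

end Pool.Agent.Results.MP_b4d381_co.InfiniteMinimalDSF
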